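import Mathlib

set_option autoImplicit false

namespace Pool.Agent.Results.MP_af4de1_an.CubeRoot

lemma tri (k : ℕ) : (k + 3) * (k + 3 - 1) / 2 = k * (k - 1) / 2 + 3 * (k + 1) := by
  rcases k with _ | m
  · rfl
  · have h : (m + 1 + 3) * (m + 1 + 3 - 1) = (m + 1) * (m + 1 - 1) + (3 * (m + 1 + 1)) * 2 := by
      rw [show m + 1 + 3 - 1 = m + 3 by omega, show m + 1 - 1 = m by omega]
      ring
    rw [h, Nat.add_mul_div_right _ _ (by norm_num)]

lemma cube (q : ℂ) (hq : q ^ 2 + q + 1 = 0) : q ^ 3 = 1 := by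
  linear_combination (q - 1) * hq

lemma pw (q : ℂ) (hq : q ^ 2 + q + 1 = 0) (k : ℕ) : q ^ (k * (k - 1) / 2) =
    (2 + q) / 3 * (1 + q ^ 2 * q ^ k + (q ^ 2) ^ k) := by
  have h3 := cube q hq
  induction k using Nat.strong_induction_on with
  | _ k ih =>
    rcases k with _ | _ | _ | k
    · norm_num
      linear_combination (-(q + 1) / 3) * hq
    · norm_num
      linear_combination (-(q ^ 2 + 2 * q - 1) / 3) * hq
    · norm_num
      linear_combination (-(2 * q ^ 3 + 2 * q ^ 2 - 2 * q - 1) / 3 - 1 / 3) * hq + (2 / 3) * h3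
    · rw [show k + 1 + 1 + 1 = k + 3 by ring, tri, pow_add, pow_mul, h3, one_pow, mul_one,
        ih k (by omega), pow_add, h3, mul_one, pow_add, ← pow_mul, ← pow_mul q 2 3,
        show 2 * 3 = 3 * 2 by norm_num, pow_mul q 3 2, h3, one_pow, mul_one]

lemma closed (q : ℂ) (hq : q ^ 2 + q + 1 = 0) (w : ℂ) :
    (∑' k : ℕ, q ^ (k * (k - 1) / 2) * w ^ k / (Nat.factorial k : ℂ)) =
    (2 + q) / 3 * (Complex.exp w + q ^ 2 * Complex.exp (q * w) + Complex.exp (q ^ 2 * w)) := by
  have hs : ∀ u : ℂ, HasSum (fun k : ℕ => u ^ k / (Nat.factorial k : ℂ)) (Complex.exp u) := by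
    intro u
    rw [Complex.exp_eq_exp_ℂ]
    exact NormedSpace.expSeries_div_hasSum_exp u
  have h := (((hs w).add ((hs (q * w)).mul_left (q ^ 2))).add (hs (q ^ 2 * w))).mul_left
    ((2 + q) / 3)
  rw [← h.tsum_eq]
  congr 1
  funext k
  rw [pw q hq k, mul_pow, mul_pow]
  ring

theorem result : ∀ q : ℂ, q ^ 2 + q + 1 = 0 → ∀ z : ℂ,
      (∑' k : ℕ, q ^ (k * (k - 1) / 2) * z ^ k / (Nat.factorial k : ℂ)) = 0 →
      deriv (fun w : ℂ => ∑' k : ℕ, q ^ (k * (k - 1) / 2) * w ^ k / (Nat.factorial k : ℂ)) z ≠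
        0 := by
  intro q hq z hz hd
  have h3 := cube q hq
  have hfun : (fun w : ℂ => ∑' k : ℕ, q ^ (k * (k - 1) / 2) * w ^ k / (Nat.factorial k : ℂ)) =
      fun w => (2 + q) / 3 * (Complex.exp w + q ^ 2 * Complex.exp (q * w) +
        Complex.exp (q ^ 2 * w)) := by
    funext w; exact closed q hq w
  rw [closed q hq z] at hz
  rw [hfun] at hd
  have hder : HasDerivAt (fun w => (2 + q) / 3 * (Complex.exp w + q ^ 2 * Complex.exp (q * w) +
        Complex.exp (q ^ 2 * w))) ((2 + q) / 3 * (Complex.exp z + q ^ 2 * (Complex.exp (q * z) * q)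
        + Complex.exp (q ^ 2 * z) * q ^ 2)) z := by
    have e1 : HasDerivAt (fun w : ℂ => Complex.exp w) (Complex.exp z) z := Complex.hasDerivAt_exp z
    have e2 : ∀ a : ℂ, HasDerivAt (fun w : ℂ => Complex.exp (a * w)) (Complex.exp (a * z) * a) z := by
      intro a
      have := ((hasDerivAt_id z).const_mul a).cexp
      simpa using this
    exact ((e1.add ((e2 q).const_mul (q ^ 2))).add (e2 (q ^ 2))).const_mul _
  rw [hder.deriv] at hd
  have hc : (2 + q) / 3 ≠ 0 := by
    intro h
    have h2 : q = -2 := by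
      have : 2 + q = 0 := by
        rcases div_eq_zero_iff.mp h with h | h
        · exact h
        · norm_num at h
      linear_combination this
    rw [h2] at hq
    norm_num at hq
  have hF := (mul_eq_zero.mp hz).resolve_left hc
  have hF' := (mul_eq_zero.mp hd).resolve_left hc
  have hq1 : q ≠ 1 := by
    rintro rfl
    norm_num at hq
  have hq2 : q ^ 2 - 1 ≠ 0 := by
    intro h
    apply hq1
    linear_combination h3 - q * h
  have hBC : Complex.exp (q * z) = Complex.exp (q ^ 2 * z) := by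
    have : (q ^ 2 - 1) * (Complex.exp (q * z) - Complex.exp (q ^ 2 * z)) = 0 := by
      linear_combination hF - hF' + Complex.exp (q * z) * h3
    have h5 := (mul_eq_zero.mp this).resolve_left hq2
    linear_combination h5
  have hA : Complex.exp z = q * Complex.exp (q * z) := by
    rw [← hBC] at hF
    linear_combination hF - Complex.exp (q * z) * hq
  -- z is real
  obtain ⟨n, hn⟩ := Complex.exp_eq_exp_iff_exists_int.mp hBC
  have hzsq : z ^ 2 = ((4 * Real.pi ^ 2 * (n : ℝ) ^ 2 / 3 : ℝ) : ℂ) := by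
    have e1 : (q - q ^ 2) * z = (n : ℂ) * (2 * Real.pi * Complex.I) := by
      linear_combination hn
    have e2 : ((q - q ^ 2) * z) ^ 2 = -3 * z ^ 2 := by
      have : (q - q ^ 2) ^ 2 = -3 := by linear_combination hq - (2 - q) * h3
      rw [mul_pow, this]
    rw [e1] at e2
    have e3 : ((n : ℂ) * (2 * Real.pi * Complex.I)) ^ 2 = -(4 * Real.pi ^ 2 * (n : ℂ) ^ 2) := by
      rw [mul_pow, mul_pow, Complex.I_sq]; ring
    rw [e3] at e2
    push_cast
    linear_combination (1 / 3) * e2
  have hzim : z.im = 0 := by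
    have r1 := congrArg Complex.re hzsq
    have r2 := congrArg Complex.im hzsq
    rw [Complex.ofReal_re, pow_two, Complex.mul_re] at r1
    rw [Complex.ofReal_im, pow_two, Complex.mul_im] at r2
    have r3 : z.re * z.im = 0 := by linarith
    have r4 : 0 ≤ 4 * Real.pi ^ 2 * (n : ℝ) ^ 2 / 3 := by positivity
    rcases mul_eq_zero.mp r3 with h | h
    · rw [h] at r1
      have : z.im * z.im ≤ 0 := by linarith
      exact mul_self_eq_zero.mp (le_antisymm this (mul_self_nonneg _))
    · exact h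
  -- real part of q
  have hre : q.re = -1 / 2 := by
    have r1 := congrArg Complex.re hq
    have r2 := congrArg Complex.im hq
    simp [pow_two] at r1 r2
    have r3 : q.im * (2 * q.re + 1) = 0 := by linarith
    rcases mul_eq_zero.mp r3 with h | h
    · exfalso
      rw [h] at r1
      nlinarith [sq_nonneg (q.re + 1 / 2)]
    · linarith
  have hnorm : ‖q‖ = 1 := by
    have : ‖q‖ ^ 3 = 1 := by rw [← norm_pow, h3, norm_one]
    exact (pow_eq_one_iff_of_nonneg (norm_nonneg q) (by norm_num)).mp this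
  have hN := congrArg norm hA
  rw [norm_mul, hnorm, one_mul, Complex.norm_exp, Complex.norm_exp] at hN
  have hR := Real.exp_injective hN
  rw [Complex.mul_re, hzim, hre] at hR
  have hz0 : z.re = 0 := by linarith
  have hzz : z = 0 := Complex.ext hz0 hzim
  rw [hzz, mul_zero, Complex.exp_zero, mul_one] at hA
  exact hq1 hA.symm

end Pool.Agent.Results.MP_af4de1_an.CubeRoot
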